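import Pool.Agent.MP_3ee8cb_gt.DZJ.Alg

/-! Adapted frames for the Jacobian estimate near a rank one model. -/

namespace Pool.Agent.MP_3ee8cb_gt.NSJ

open Set MeasureTheory CR
open scoped RealInnerProductSpace

variable {n : ℕ}

theorem det_of (J : E n →L[ℝ] E n) (e f : OrthonormalBasis (Fin n) ℝ (E n)) (s : Fin n → ℝ)
    (hf : ∀ i, J (e i) = s i • f i) : |J.det| = |∏ i, s i| := by
  let L : E n →ₗ[ℝ] E n := J
  have h1 : e.toBasis.det (L ∘ e.toBasis) = J.det := by
    rw [Module.Basis.det_comp, Module.Basis.det_self, mul_one]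
  have h2 : (L ∘ e.toBasis) = fun i => s i • f i := funext hf
  rw [← h1, h2, AlternatingMap.map_smul_univ, smul_eq_mul, abs_mul]
  rcases e.det_to_matrix_orthonormalBasis_real f with h3 | h3
  · rw [show e.toBasis.det (fun i => f i) = 1 from h3, abs_one, mul_one]
  · rw [show e.toBasis.det (fun i => f i) = -1 from h3, abs_neg, abs_one, mul_one]

/-- The map sending `e i` to `s i • f i`. -/
noncomputable def dg (e f : OrthonormalBasis (Fin n) ℝ (E n)) (s : Fin n → ℝ) :
    E n →L[ℝ] E n := ∑ i, (innerSL ℝ (e i)).smulRight (s i • f i)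

theorem dg_app (e f : OrthonormalBasis (Fin n) ℝ (E n)) (s : Fin n → ℝ) (x : E n) :
    dg e f s x = ∑ i, (⟪e i, x⟫ * s i) • f i := by
  simp only [dg, sum_apply, ContinuousLinearMap.smulRight_apply,
    innerSL_apply_apply, smul_smul]

theorem dg_inner (e f : OrthonormalBasis (Fin n) ℝ (E n)) (s : Fin n → ℝ) (x : E n) (j : Fin n) :
    ⟪f j, dg e f s x⟫ = ⟪e j, x⟫ * s j := by
  rw [dg_app, f.orthonormal.inner_right_fintype]

theorem dg_bas (e f : OrthonormalBasis (Fin n) ℝ (E n)) (s : Fin n → ℝ) (j : Fin n) :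
    dg e f s (e j) = s j • f j := by
  classical
  rw [dg_app, Finset.sum_eq_single j]
  · rw [real_inner_self_eq_norm_sq, e.orthonormal.1 j, one_pow, one_mul]
  · intro i _ h
    rw [e.orthonormal.2 h, zero_mul, zero_smul]
  · intro h
    exact absurd (Finset.mem_univ j) h

theorem dg_norm (e f : OrthonormalBasis (Fin n) ℝ (E n)) (s : Fin n → ℝ) (x : E n) :
    ‖dg e f s x‖ ^ 2 = ∑ i, (⟪e i, x⟫ * s i) ^ 2 := by
  rw [← f.sum_sq_inner_right]
  simp only [dg_inner]

theorem dg_sym (f : OrthonormalBasis (Fin n) ℝ (E n)) (s : Fin n → ℝ) (x y : E n) :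
    ⟪dg f f s x, y⟫ = ⟪x, dg f f s y⟫ := by
  rw [← f.sum_inner_mul_inner, ← f.sum_inner_mul_inner x]
  refine Finset.sum_congr rfl fun i _ => ?_
  rw [real_inner_comm (f i) (dg f f s x), dg_inner, dg_inner, real_inner_comm (f i) x]
  ring

/-- The adapted frame. -/
theorem frame (L : E n →L[ℝ] E n) (h0 : L.det ≠ 0) (f : OrthonormalBasis (Fin n) ℝ (E n))
    (q : Fin n → ℝ) (hq : ∀ j, 0 < q j) :
    ∃ (S : E n →L[ℝ] E n) (e : OrthonormalBasis (Fin n) ℝ (E n)) (r : Fin n → ℝ),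
      (∀ i, 0 < r i) ∧ (∀ i, L (S (e i)) = r i ^ 2 • e i) ∧
      (∀ w, ‖S w‖ ^ 2 = ∑ j, (⟪f j, w⟫ * (q j)⁻¹) ^ 2) ∧
      |L.det| = (∏ i, r i ^ 2) * ∏ j, q j := by
  have hP : 0 < ∏ j, q j := Finset.prod_pos fun j _ => hq j
  set D := dg f f q with hD
  set S0 := dg f f fun j => (q j)⁻¹ with hS0
  have hDd : |D.det| = ∏ j, q j := by rw [det_of D f f q (dg_bas f f q), abs_of_pos hP]
  have hSd : |S0.det| = (∏ j, q j)⁻¹ := by
    rw [det_of S0 f f _ (dg_bas f f _), Finset.prod_inv_distrib, abs_of_pos (inv_pos.2 hP)]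
  have hSD : ∀ x, S0 (D x) = x := fun x => by
    rw [hS0, dg_app]
    conv_rhs => rw [← f.sum_repr' x]
    refine Finset.sum_congr rfl fun i _ => ?_
    rw [hD, dg_inner, mul_assoc, mul_inv_cancel₀ (hq i).ne', mul_one]
  have hc : ∀ A B : E n →L[ℝ] E n, (A.comp B).det = A.det * B.det := fun A B =>
    LinearMap.det_comp (A : E n →ₗ[ℝ] E n) (B : E n →ₗ[ℝ] E n)
  have hJ : (D.comp L).det ≠ 0 := by
    rw [hc]
    exact mul_ne_zero (abs_pos.1 (hDd ▸ hP)) h0
  obtain ⟨a, b, σ, hσ, hab, -⟩ := nuc_svd (D.comp L) hJ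
  have hLa : ∀ i, L (a i) = σ i • S0 (b i) := fun i => by
    rw [← map_smul, ← hab i, ContinuousLinearMap.comp_apply, hSD]
  set O := dg b a fun _ => 1 with hO
  have hOd : |O.det| = 1 := by rw [det_of O b a _ (dg_bas b a _)]; simp
  set M := L.comp (O.comp S0) with hM
  have hMi : ∀ x y, ⟪M x, y⟫ = ∑ i, σ i * (⟪b i, S0 x⟫ * ⟪b i, S0 y⟫) := fun x y => by
    simp only [hM, hO, ContinuousLinearMap.comp_apply]
    rw [dg_app, map_sum, sum_inner]
    refine Finset.sum_congr rfl fun i _ => ?_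
    rw [map_smul, hLa, real_inner_smul_left, real_inner_smul_left, hS0, dg_sym]
    ring
  have hs : (M : E n →ₗ[ℝ] E n).IsSymmetric := fun x y => by
    change ⟪M x, y⟫ = ⟪x, M y⟫
    rw [real_inner_comm (M y) x, hMi, hMi]
    exact Finset.sum_congr rfl fun i _ => by ring
  have hn : Module.finrank ℝ (E n) = n := by simp
  let e := hs.eigenvectorBasis hn
  let l : Fin n → ℝ := hs.eigenvalues hn
  have hel : ∀ i, M (e i) = l i • e i := fun i => hs.apply_eigenvectorBasis hn i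
  have hMd : |L.det| * (∏ j, q j)⁻¹ = |∏ i, l i| := by
    rw [← det_of M e e l hel, hM, hc, hc, abs_mul, abs_mul, hOd, hSd, one_mul]
  have hl0 : ∀ i, 0 ≤ l i := fun i => by
    have h1 := hMi (e i) (e i)
    rw [hel, real_inner_smul_left, real_inner_self_eq_norm_sq, e.orthonormal.1 i, one_pow,
      mul_one] at h1
    rw [h1]
    exact Finset.sum_nonneg fun k _ => mul_nonneg (hσ k).le (mul_self_nonneg _)
  have hl : ∀ i, 0 < l i := fun i => (hl0 i).lt_of_ne fun h => by
    rw [Finset.prod_eq_zero (Finset.mem_univ i) h.symm, abs_zero] at hMd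
    exact (mul_pos (abs_pos.2 h0) (inv_pos.2 hP)).ne' hMd
  have hr : ∀ i, √(l i) ^ 2 = l i := fun i => Real.sq_sqrt (hl0 i)
  refine ⟨O.comp S0, e, fun i => √(l i), fun i => Real.sqrt_pos.2 (hl i), fun i => ?_,
    fun w => ?_, ?_⟩
  · rw [hr]
    exact hel i
  · rw [ContinuousLinearMap.comp_apply, hO, dg_norm]
    simp only [mul_one]
    rw [b.sum_sq_inner_right, hS0, dg_norm]
  · simp only [hr]
    rw [abs_of_nonneg (Finset.prod_nonneg fun i _ => hl0 i)] at hMd
    rw [← hMd, mul_assoc, inv_mul_cancel₀ hP.ne', mul_one]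

/-- Weighted integrals of continuous functions of the direction. -/
theorem intg {W : Type*} [MeasurableSpace W] (μ : Measure W) [IsFiniteMeasure μ] (g : W → ℝ)
    (u : W → E n) (hg : Integrable g μ) (hu : ∀ᵐ w ∂μ, ‖u w‖ = 1)
    (hum : AEStronglyMeasurable u μ) {F : Type*} [NormedAddCommGroup F] [NormedSpace ℝ F]
    (φ : E n → F) (hφ : Continuous φ) : Integrable (fun w => g w • φ (u w)) μ := by
  obtain ⟨C, hC⟩ := (isCompact_sphere (0 : E n) 1).exists_bound_of_continuousOn hφ.continuousOn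
  refine Integrable.mono' (hg.norm.mul_const C)
    (hg.aestronglyMeasurable.smul (hφ.comp_aestronglyMeasurable hum)) ?_
  filter_upwards [hu] with w hw
  rw [norm_smul]
  exact mul_le_mul_of_nonneg_left (hC _ (by simpa using hw)) (norm_nonneg _)

/-- The second moment is diagonal in an orthonormal basis. -/
theorem mom {W : Type*} [MeasurableSpace W] (μ : Measure W) [IsFiniteMeasure μ] (g : W → ℝ)
    (u : W → E n) (hg : Integrable g μ) (hu : ∀ᵐ w ∂μ, ‖u w‖ = 1)
    (hum : AEStronglyMeasurable u μ) :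
    ∃ (f : OrthonormalBasis (Fin n) ℝ (E n)) (m : Fin n → ℝ), ∀ j k,
      ∫ w, g w * (⟪f j, u w⟫ * ⟪f k, u w⟫) ∂μ = m j * ⟪f j, f k⟫ := by
  let φ : E n → E n →L[ℝ] E n := fun v => (innerSL ℝ v).smulRight v
  have hφ : Continuous φ := by
    have : φ = fun v => ContinuousLinearMap.smulRightL ℝ (E n) (E n) (innerSL ℝ v) v := rfl
    rw [this]
    fun_prop
  have hi := intg μ g u hg hu hum φ hφ
  set H : E n →L[ℝ] E n := ∫ w, g w • φ (u w) ∂μ with hH
  have hHi : ∀ a b, ⟪b, H a⟫ = ∫ w, g w * (⟪a, u w⟫ * ⟪b, u w⟫) ∂μ := fun a b => by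
    rw [hH, ContinuousLinearMap.integral_apply hi, ← integral_inner (hi.apply_continuousLinearMap a)]
    refine integral_congr_ae (.of_forall fun w => ?_)
    simp only [φ, smul_apply, ContinuousLinearMap.smulRight_apply,
      innerSL_apply_apply, real_inner_smul_right]
    rw [real_inner_comm a (u w)]
  have hs : (H : E n →ₗ[ℝ] E n).IsSymmetric := fun x y => by
    change ⟪H x, y⟫ = ⟪x, H y⟫
    rw [real_inner_comm, hHi, hHi]
    exact integral_congr_ae (.of_forall fun w => by ring)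
  have hn : Module.finrank ℝ (E n) = n := by simp
  refine ⟨hs.eigenvectorBasis hn, hs.eigenvalues hn, fun j k => ?_⟩
  have h1 : H (hs.eigenvectorBasis hn j) = (hs.eigenvalues hn j : ℝ) • hs.eigenvectorBasis hn j :=
    hs.apply_eigenvectorBasis hn j
  rw [← hHi, h1, real_inner_smul_right, real_inner_comm]

end Pool.Agent.MP_3ee8cb_gt.NSJ
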