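import Mathlib

/-! The scalar part of the Jacobian estimate near a rank one model. -/

namespace Pool.Agent.MP_3ee8cb_gt.NSJ

open Finset

/-- The weighted inequality of means, in logarithmic form. -/
theorem wlog_le {ι : Type*} [Fintype ι] (D x : ι → ℝ) (n d β : ℝ) (hD : ∀ j, 0 ≤ D j)
    (hx : ∀ j, 0 < x j) (hn : 0 ≤ n) (hs : ∑ j, D j = d) (hβ : 0 < β)
    (h : (n + d) * β = n + ∑ j, D j * x j) :
    ∑ j, D j * Real.log (x j) ≤ (n + d) * Real.log β := by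
  have h1 : ∀ y : ℝ, 0 < y → Real.log y - Real.log β ≤ y / β - 1 := fun y hy => by
    rw [← Real.log_div hy.ne' hβ.ne']
    exact Real.log_le_sub_one_of_pos (div_pos hy hβ)
  have h2 := Finset.sum_le_sum fun j (_ : j ∈ univ) => mul_le_mul_of_nonneg_left (h1 _ (hx j)) (hD j)
  have h3 := mul_le_mul_of_nonneg_left (h1 1 one_pos) hn
  simp only [mul_sub, Finset.sum_sub_distrib, ← Finset.sum_mul, hs, mul_one, ← mul_div_assoc,
    ← Finset.sum_div] at h2
  rw [Real.log_one] at h3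
  have h4 : (∑ j, D j * x j) / β = n + d - n * (1 / β) := by
    field_simp
    linarith
  rw [h4] at h2
  nlinarith

/-- The scalar estimate. -/
theorem sca {ι : Type*} [Fintype ι] (r q β : ι → ℝ) (D : ι → ι → ℝ) (n d ε : ℝ)
    (hn : (Fintype.card ι : ℝ) = n) (hn1 : 1 ≤ n) (hd0 : 0 ≤ d) (hd1 : d ≤ n - 1)
    (hr : ∀ i, 0 < r i) (hq : ∀ j, 0 < q j) (hD : ∀ i j, 0 ≤ D i j)
    (hrow : ∀ i, ∑ j, D i j = d) (hcol : ∀ j, ∑ i, D i j = d) (hq2 : ∑ j, q j ^ 2 = n)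
    (hβ : ∀ i, (n + d) * β i = n + ∑ j, D i j * q j ^ 2) (hε : 256 * n ^ 4 * ε ^ 2 ≤ 1)
    (h : ∑ i, r i ^ 2 * β i ≤ n + 2 * n * ε ^ 2 * ∑ i, (r i - 1) ^ 2) :
    (∏ i, r i ^ 2) * ∏ j, q j ≤ 1 ∧
      (1 ≤ (∏ i, r i ^ 2) * ∏ j, q j → ∀ i, r i = 1 ∧ β i = 1) := by
  have hs : 0 < n + d := by linarith
  set X : ℝ := ∑ j, (q j - 1) ^ 2 with hX
  have hX0 : 0 ≤ X := sum_nonneg fun _ _ => sq_nonneg _
  have hβ2 : ∀ i, 1 / 2 ≤ β i := fun i => by
    have h1 : 0 ≤ ∑ j, D i j * q j ^ 2 := sum_nonneg fun j _ => mul_nonneg (hD i j) (sq_nonneg _)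
    have h2 := hβ i
    by_contra h3
    nlinarith
  have hβ0 : ∀ i, 0 < β i := fun i => by linarith [hβ2 i]
  have hy : ∀ j, |q j ^ 2 - 1| ≤ √(4 * n * X) := fun j => by
    refine Real.abs_le_sqrt ?_
    have h1 : (q j - 1) ^ 2 ≤ X :=
      single_le_sum (f := fun j => (q j - 1) ^ 2) (fun _ _ => sq_nonneg _) (mem_univ j)
    have h2 : q j ^ 2 ≤ n := hq2 ▸
      single_le_sum (f := fun j => q j ^ 2) (fun _ _ => sq_nonneg _) (mem_univ j)
    have h3 : (q j + 1) ^ 2 ≤ 4 * n := by nlinarith [sq_nonneg (q j - 1)]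
    calc (q j ^ 2 - 1) ^ 2 = (q j + 1) ^ 2 * (q j - 1) ^ 2 := by ring
      _ ≤ 4 * n * X := mul_le_mul h3 h1 (sq_nonneg _) (by linarith)
  have hb : ∀ i, (β i - 1) ^ 2 ≤ 4 * n * X := fun i => by
    have h1 : (n + d) * (β i - 1) = ∑ j, D i j * (q j ^ 2 - 1) := by
      simp only [mul_sub, sum_sub_distrib, mul_one, hrow]
      linarith [hβ i]
    have h2 : |∑ j, D i j * (q j ^ 2 - 1)| ≤ d * √(4 * n * X) := by
      refine (abs_sum_le_sum_abs _ _).trans ?_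
      rw [← hrow i, sum_mul]
      refine sum_le_sum fun j _ => ?_
      rw [abs_mul, abs_of_nonneg (hD i j)]
      exact mul_le_mul_of_nonneg_left (hy j) (hD i j)
    rw [← h1, abs_mul, abs_of_pos hs] at h2
    have h3 : |β i - 1| ≤ √(4 * n * X) := by
      refine le_of_mul_le_mul_left (h2.trans ?_) hs
      exact mul_le_mul_of_nonneg_right (by linarith) (Real.sqrt_nonneg _)
    have h4 := pow_le_pow_left₀ (abs_nonneg _) h3 2
    rwa [sq_abs, Real.sq_sqrt (by positivity)] at h4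
  obtain ⟨b, hb0, hbβ⟩ : ∃ b : ι → ℝ, (∀ i, 0 < b i) ∧ ∀ i, β i = b i ^ 2 :=
    ⟨fun i => √(β i), fun i => Real.sqrt_pos.2 (hβ0 i), fun i => (Real.sq_sqrt (hβ0 i).le).symm⟩
  set Y : ℝ := ∑ i, (r i * b i - 1) ^ 2 with hY
  have hY0 : 0 ≤ Y := sum_nonneg fun _ _ => sq_nonneg _
  have hri : ∀ i, (r i - 1) ^ 2 ≤ 4 * (r i * b i - 1) ^ 2 + 16 * n * X := fun i => by
    have h1 := hβ2 i
    have h2 := hb i
    rw [hbβ i] at h1 h2
    have h3 : (1 - b i) ^ 2 ≤ (b i ^ 2 - 1) ^ 2 := by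
      have : (b i ^ 2 - 1) ^ 2 = (1 - b i) ^ 2 * (1 + b i) ^ 2 := by ring
      rw [this]
      exact le_mul_of_one_le_right (sq_nonneg _) (by nlinarith [hb0 i])
    have h4 : (r i - 1) ^ 2 * b i ^ 2 ≤ 2 * (r i * b i - 1) ^ 2 + 2 * (1 - b i) ^ 2 := by
      nlinarith [sq_nonneg (r i * b i - 1 - (1 - b i))]
    nlinarith [mul_le_mul_of_nonneg_left h1 (sq_nonneg (r i - 1))]
  have hR : ∑ i, (r i - 1) ^ 2 ≤ 4 * Y + 16 * n ^ 2 * X := by
    have h1 := sum_le_sum fun i (_ : i ∈ univ) => hri i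
    rw [sum_add_distrib, ← mul_sum, sum_const, card_univ, nsmul_eq_mul, hn] at h1
    linarith
  set Λ : ℝ := ∑ j, Real.log (q j) with hΛ
  have hΛ1 : Λ ≤ -X / 2 := by
    have h1 : ∀ j, Real.log (q j) ≤ (q j ^ 2 - 1 - (q j - 1) ^ 2) / 2 := fun j => by
      have := Real.log_le_sub_one_of_pos (hq j)
      nlinarith
    have h2 := sum_le_sum fun j (_ : j ∈ univ) => h1 j
    rw [← sum_div, sum_sub_distrib, sum_sub_distrib, hq2, sum_const, card_univ, nsmul_eq_mul,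
      hn] at h2
    linarith
  have hlb : 2 * d * Λ ≤ (n + d) * ∑ i, Real.log (β i) := by
    have h1 := sum_le_sum fun i (_ : i ∈ univ) => wlog_le (D i) (fun j => q j ^ 2) n d (β i)
      (hD i) (fun j => pow_pos (hq j) 2) (by linarith) (hrow i) (hβ0 i) (hβ i)
    rw [sum_comm, ← mul_sum] at h1
    refine le_trans (le_of_eq ?_) h1
    rw [hΛ, mul_sum]
    refine sum_congr rfl fun j _ => ?_
    rw [← sum_mul, hcol, Real.log_pow]
    push_cast
    ring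
  have hlr : ∑ i, Real.log (r i ^ 2) ≤ ∑ i, r i ^ 2 * β i - n - Y - ∑ i, Real.log (β i) := by
    have h1 : ∀ i, Real.log (r i ^ 2) ≤
        r i ^ 2 * β i - 1 - (r i * b i - 1) ^ 2 - Real.log (β i) := fun i => by
      have h2 := Real.log_le_sub_one_of_pos (mul_pos (hr i) (hb0 i))
      rw [Real.log_mul (hr i).ne' (hb0 i).ne'] at h2
      rw [hbβ i, Real.log_pow, Real.log_pow]
      push_cast
      nlinarith
    have h2 := sum_le_sum fun i (_ : i ∈ univ) => h1 i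
    simp only [sum_sub_distrib, sum_const, card_univ, nsmul_eq_mul, mul_one, hn] at h2
    exact h2
  have hp1 : 0 < ∏ i, r i ^ 2 := prod_pos fun i _ => pow_pos (hr i) 2
  have hp2 : 0 < ∏ j, q j := prod_pos fun j _ => hq j
  have hlog : Real.log ((∏ i, r i ^ 2) * ∏ j, q j) = ∑ i, Real.log (r i ^ 2) + Λ := by
    rw [Real.log_mul hp1.ne' hp2.ne', Real.log_prod fun i _ => (pow_pos (hr i) 2).ne',
      Real.log_prod fun j _ => (hq j).ne']
  have hn3 : n ≤ n ^ 4 := le_self_pow₀ hn1 (by norm_num)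
  have he1 : 256 * n * ε ^ 2 ≤ 1 := by nlinarith [sq_nonneg ε]
  have hL : Λ - ∑ i, Real.log (β i) ≤ -(X / (4 * n)) := by
    have h1 : (n + d) * (Λ - ∑ i, Real.log (β i)) ≤ -X / 2 := by nlinarith
    have h2 : -X / 2 ≤ (n + d) * -(X / (4 * n)) := by
      have h3 : X / (4 * n) * (4 * n) = X := div_mul_cancel₀ _ (by positivity)
      have h4 : 0 ≤ X / (4 * n) := by positivity
      nlinarith
    exact le_of_mul_le_mul_left (h1.trans h2) hs
  have hE : 2 * n * ε ^ 2 * ∑ i, (r i - 1) ^ 2 ≤ Y / 2 + X / (8 * n) := by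
    have h1 := mul_le_mul_of_nonneg_left hR (by positivity : 0 ≤ 2 * n * ε ^ 2)
    have h2 : 2 * n * ε ^ 2 * (16 * n ^ 2 * X) ≤ X / (8 * n) := by
      rw [le_div_iff₀ (by positivity)]
      nlinarith [mul_le_mul_of_nonneg_right hε hX0]
    nlinarith [mul_le_mul_of_nonneg_right he1 hY0]
  have hX8 : X / (4 * n) = 2 * (X / (8 * n)) := by
    field_simp
    ring
  have hX9 : 0 ≤ X / (8 * n) := by positivity
  have hfin : Real.log ((∏ i, r i ^ 2) * ∏ j, q j) ≤ -(Y / 2) - X / (8 * n) := by linarith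
  refine ⟨(Real.log_nonpos_iff (mul_pos hp1 hp2).le).1 (by linarith), fun h1 i => ?_⟩
  have h2 := Real.log_nonneg h1
  have hY1 : Y = 0 := by linarith
  have hX1 : X = 0 := by
    have h3 : X / (8 * n) = 0 := by linarith
    rcases div_eq_zero_iff.1 h3 with h4 | h4
    · exact h4
    · linarith
  have h3 : (r i - 1) ^ 2 ≤ ∑ i, (r i - 1) ^ 2 :=
    single_le_sum (f := fun i => (r i - 1) ^ 2) (fun _ _ => sq_nonneg _) (mem_univ i)
  have h4 := hb i
  rw [hY1, hX1] at hR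
  rw [hX1] at h4
  constructor
  · nlinarith [sq_nonneg (r i - 1)]
  · nlinarith [sq_nonneg (β i - 1)]

end Pool.Agent.MP_3ee8cb_gt.NSJ
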